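import Mathlib

/-!
The number of surjections of a finite abelian group onto `ℤ/g` is the number of its elements of
order `g`.
-/

namespace Pool.Agent.TH827.CG

open Function

variable {A : Type*} [CommGroup A] [Finite A]

omit [Finite A] in
lemma order_eq_card_range {g : ℕ} [NeZero g] (f : A →* Multiplicative (ZMod g)) :
    orderOf f = Nat.card f.range := by
  have : IsCyclic f.range := inferInstance
  rw [← IsCyclic.exponent_eq_card (α := f.range)]
  apply Nat.dvd_antisymm
  · rw [orderOf_dvd_iff_pow_eq_one]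
    apply MonoidHom.ext
    intro a
    rw [MonoidHom.pow_apply, MonoidHom.one_apply]
    have := Monoid.pow_exponent_eq_one (⟨f a, ⟨a, rfl⟩⟩ : f.range)
    exact congrArg Subtype.val this
  · rw [Monoid.exponent_dvd_iff_forall_pow_eq_one]
    rintro ⟨y, a, rfl⟩
    have := DFunLike.congr_fun (pow_orderOf_eq_one f) a
    rw [MonoidHom.pow_apply, MonoidHom.one_apply] at this
    exact Subtype.ext this

lemma surj_iff_order {g : ℕ} [NeZero g] (f : A →* Multiplicative (ZMod g)) :
    Surjective f ↔ orderOf f = g := by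
  rw [order_eq_card_range, ← MonoidHom.range_eq_top]
  constructor
  · intro h
    rw [h, Nat.card_congr Subgroup.topEquiv.toEquiv]
    exact Nat.card_zmod g
  · intro h
    apply Subgroup.eq_top_of_card_eq
    rw [h]
    exact (Nat.card_zmod g).symm

theorem card_sur {g : ℕ} (hg : 0 < g) :
    Nat.card {f : A →* Multiplicative (ZMod g) // Surjective f} =
      Nat.card {a : A // orderOf a = g} := by
  have : NeZero g := ⟨hg.ne'⟩
  obtain ⟨e⟩ := CommGroup.monoidHom_mulEquiv_of_hasEnoughRootsOfUnity A ℂ
  -- a primitive root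
  have hζ0 := Complex.isPrimitiveRoot_exp g hg.ne'
  obtain ⟨ζ, hζ⟩ : ∃ ζ : ℂˣ, IsPrimitiveRoot ζ g := by
    refine ⟨(hζ0.isUnit hg.ne').unit, ?_⟩
    rw [← IsPrimitiveRoot.coe_units_iff]
    exact hζ0
  let e1 : Multiplicative (ZMod g) ≃* Subgroup.zpowers ζ :=
    AddEquiv.toMultiplicativeLeft hζ.zmodEquivZPowers
  let ι : Multiplicative (ZMod g) →* ℂˣ := (Subgroup.zpowers ζ).subtype.comp e1.toMonoidHom
  have hι : Injective ι := (Subgroup.subtype_injective _).comp e1.injective
  have hφ : Injective (MonoidHom.compHom (M := A) ι) := by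
    intro f1 f2 h
    ext a
    apply congrArg
    apply hι
    exact DFunLike.congr_fun h a
  have h1 : Nat.card {a : A // orderOf a = g} = Nat.card {χ : A →* ℂˣ // orderOf χ = g} := by
    apply Nat.card_congr
    exact (e.toEquiv.subtypeEquiv (fun χ => by rw [← e.orderOf_eq χ]; rfl)).symm
  rw [h1]
  apply Nat.card_congr
  refine Equiv.ofBijective (fun f => ⟨MonoidHom.compHom (M := A) ι f.1, ?_⟩) ⟨?_, ?_⟩
  · rw [orderOf_injective _ hφ]
    exact (surj_iff_order f.1).1 f.2
  · intro f1 f2 h
    apply Subtype.ext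
    apply hφ
    exact congrArg Subtype.val h
  · rintro ⟨χ, hχ⟩
    have hmem : ∀ a, χ a ∈ Subgroup.zpowers ζ := by
      intro a
      rw [hζ.zpowers_eq, mem_rootsOfUnity]
      have := DFunLike.congr_fun (pow_orderOf_eq_one χ) a
      rw [hχ] at this
      simpa using this
    let f : A →* Multiplicative (ZMod g) := e1.symm.toMonoidHom.comp (χ.codRestrict _ hmem)
    have hf : MonoidHom.compHom (M := A) ι f = χ := by
      ext a
      show ((e1 (e1.symm (χ.codRestrict _ hmem a)) : Subgroup.zpowers ζ) : ℂˣ).val = _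
      rw [MulEquiv.apply_symm_apply]
      rfl
    refine ⟨⟨f, ?_⟩, Subtype.ext hf⟩
    rw [surj_iff_order, ← orderOf_injective _ hφ, hf, hχ]

end Pool.Agent.TH827.CG
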