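import Pool.Agent.TH827.CG.Fiber

/-!
Ideal classes of exact order `g` from the solutions of `n^2 + s^2 d = m^g`; the solutions for which
the order is smaller are determined by few parameters.
-/

namespace Pool.Agent.TH827.CG

open NumberField Module Ideal nonZeroDivisors

variable {K : Type} [Field K] [NumberField K] {r : K} {d : ℕ}

/-- Lucas sequence: the traces of the powers of a root of `X^2 - u X + M`. -/
def luc (M u : ℤ) : ℕ → ℤ
  | 0 => 2
  | 1 => u
  | (j + 2) => u * luc M u (j + 1) - M * luc M u j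

lemma trace_one_two (h : IQ K r d) : Algebra.trace ℤ (𝓞 K) 1 = 2 := by
  have := trace_al h 1 0
  have e : al h 1 0 = (1 : 𝓞 K) := by unfold al; simp
  rw [e] at this
  rw [this]; norm_num

lemma trace_pow (h : IQ K r d) (β : 𝓞 K) (u v M : ℤ)
    (h1 : (2 : K) * (β : K) = (u : K) + (v : K) * r) (h2 : 4 * M = u ^ 2 + d * v ^ 2) (j : ℕ) :
    Algebra.trace ℤ (𝓞 K) (β ^ j) = luc M u j := by
  have hr2 : (2 : 𝓞 K) * β = (u : 𝓞 K) + (v : 𝓞 K) * rI h := by
    apply RingOfIntegers.ext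
    show algebraMap (𝓞 K) K _ = algebraMap (𝓞 K) K _
    rw [map_mul, map_add, map_mul, rI_coe, map_intCast, map_intCast, map_ofNat]
    exact h1
  have hq : β ^ 2 = (u : 𝓞 K) * β - (M : 𝓞 K) := by
    have h4 : (4 : 𝓞 K) * β ^ 2 = 4 * ((u : 𝓞 K) * β - (M : 𝓞 K)) := by
      have e1 : ((4 * M : ℤ) : 𝓞 K) = ((u ^ 2 + d * v ^ 2 : ℤ) : 𝓞 K) := by rw [h2]
      push_cast at e1
      have e2 := rI_sq h
      linear_combination (2 * β + (u : 𝓞 K) + (v : 𝓞 K) * rI h) * hr2 + (v : 𝓞 K) ^ 2 * e2 + e1 -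
        2 * (u : 𝓞 K) * hr2
    exact mul_left_cancel₀ (by norm_num : (4 : 𝓞 K) ≠ 0) h4
  have htr : Algebra.trace ℤ (𝓞 K) β = u := by
    have e : al h u v = (2 : ℤ) • β := by
      unfold al
      rw [← hr2, zsmul_eq_mul]; norm_num
    have := trace_al h u v
    rw [e, map_zsmul, smul_eq_mul] at this
    linarith
  induction j using Nat.strong_induction_on with
  | _ j ih =>
    match j with
    | 0 => rw [pow_zero, trace_one_two h]; rfl
    | 1 => rw [pow_one, htr]; rfl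
    | (j + 2) =>
      have e : β ^ (j + 2) = u • β ^ (j + 1) - M • β ^ j := by
        rw [zsmul_eq_mul, zsmul_eq_mul]
        calc β ^ (j + 2) = β ^ j * β ^ 2 := by ring
          _ = _ := by rw [hq]; ring
      rw [e, map_sub, map_zsmul, map_zsmul, ih (j + 1) (by omega), ih j (by omega), smul_eq_mul,
        smul_eq_mul]
      rfl

lemma unit_pm (h : IQ K r d) (hd : 4 < d) (ε : (𝓞 K)ˣ) :
    (ε : 𝓞 K) = 1 ∨ (ε : 𝓞 K) = -1 := by
  obtain ⟨u, v, h2, h3⟩ := int_coord h (ε : 𝓞 K)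
  have hu1 : IsUnit (Algebra.norm ℤ (ε : 𝓞 K)) := ε.isUnit.map (Algebra.norm ℤ)
  have h4 : Algebra.norm ℤ (ε : 𝓞 K) = 1 := by
    rcases Int.isUnit_iff.1 hu1 with h | h
    · exact h
    · exfalso
      rw [h] at h3
      have : (0 : ℤ) ≤ u ^ 2 + d * v ^ 2 := by positivity
      linarith
  rw [h4] at h3
  have hv : v = 0 := by
    by_contra hv
    have hv1 : (1 : ℤ) ≤ v ^ 2 := by
      have : (0 : ℤ) < v ^ 2 := by positivity
      omega
    have h5 : (4 : ℤ) < d := by exact_mod_cast hd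
    nlinarith [sq_nonneg u]
  subst hv
  obtain ⟨k, hk, hu⟩ := int_of_two h (x := (ε : 𝓞 K)) (w := u) (by rw [h2]; simp)
  have hk2 : k ^ 2 = 1 := by rw [← h4, hk, norm_int h]
  rcases mul_self_eq_one_iff.1 (show k * k = 1 by rw [← sq]; exact hk2) with h | h
  · left; rw [hk, h]; simp
  · right; rw [hk, h]; simp

/-- the exceptional pairs `(m, n)`. -/
def Bad (g m n : ℕ) : Prop :=
  ∃ q ∈ g.primeFactors, ∃ u : ℤ, u ^ 2 ≤ 4 * (m : ℤ) ^ (g / q) ∧
    2 * (n : ℤ) = |luc ((m : ℤ) ^ (g / q)) u q|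

lemma bad_of_pow (h : IQ K r d) (hd : 4 < d) {g q m n s : ℕ} {I J : Ideal (𝓞 K)}
    (hq : q ∈ g.primeFactors) (hs : Sol g d m n s) (D : Dat h g m n s I J)
    (hc : cl I ^ (g / q) = 1) : Bad g m n := by
  have hqp := Nat.prime_of_mem_primeFactors hq
  have hqg := Nat.dvd_of_mem_primeFactors hq
  have hI := D.neI hs
  rw [← cl_pow hI, cl_eq_one (pow_ne_zero _ hI)] at hc
  obtain ⟨⟨β, hβ⟩⟩ := hc
  have hβ' : I ^ (g / q) = Ideal.span {β} := hβ
  obtain ⟨u, v, h1, h2⟩ := int_coord h β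
  have hnn : 0 ≤ Algebra.norm ℤ β := by
    have : (0 : ℤ) ≤ u ^ 2 + d * v ^ 2 := by positivity
    linarith
  have h3 : Algebra.norm ℤ β = (m : ℤ) ^ (g / q) := by
    have h4 : absNorm (I ^ (g / q)) = m ^ (g / q) := by rw [map_pow, D.nI]
    rw [hβ', absNorm_span_singleton] at h4
    have h5 : Algebra.norm ℤ β = ((Algebra.norm ℤ β).natAbs : ℤ) := (Int.natAbs_of_nonneg hnn).symm
    rw [h5, h4]; push_cast; rfl
  rw [h3] at h2
  have h6 : Ideal.span {β ^ q} = Ideal.span {al h n s} := by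
    rw [← Ideal.span_singleton_pow, ← hβ', ← pow_mul, Nat.div_mul_cancel hqg, D.hI]
  rw [Ideal.span_singleton_eq_span_singleton] at h6
  obtain ⟨ε, hε⟩ := h6
  have h7 : Algebra.trace ℤ (𝓞 K) (β ^ q) = luc ((m : ℤ) ^ (g / q)) u q :=
    trace_pow h β u v _ h1 h2 q
  refine ⟨q, hq, u, ?_, ?_⟩
  · rw [h2]
    have : (0 : ℤ) ≤ d * v ^ 2 := by positivity
    linarith
  · rw [← h7]
    have hn : (0 : ℤ) ≤ 2 * n := by positivity
    rcases unit_pm h hd ε with h8 | h8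
    · rw [h8, mul_one] at hε
      rw [hε, trace_al, abs_of_nonneg hn]
    · rw [h8] at hε
      have e : β ^ q = -(al h n s) := by rw [← hε]; ring
      rw [e, map_neg, trace_al, abs_neg, abs_of_nonneg hn]

/-- the number of solutions that are not exceptional is bounded by the number of classes of order
`g`. -/
theorem main_count_order (h : IQ K r d) {g : ℕ} (hg : 0 < g) {B V : ℕ} (hB0 : 0 < B)
    (hB : 64 * B < d) (hV : 1024 * B ^ 2 < (V + 1) ^ 2 * d) (S : Finset (ℕ × ℕ × ℕ))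
    (hS : ∀ τ ∈ S, Sol g d τ.1 τ.2.1 τ.2.2 ∧ B < τ.1 ∧ τ.1 ≤ 16 * B)
    (hbad : ∀ τ ∈ S, ¬ Bad g τ.1 τ.2.1) :
    S.card ≤ (1 + 68 * V) * Nat.card {c : ClassGroup (𝓞 K) // orderOf c = g} := by
  classical
  have hex : ∀ τ ∈ S, ∃ I J : Ideal (𝓞 K), Dat h g τ.1 τ.2.1 τ.2.2 I J :=
    fun τ hτ => exists_dat h hg.ne' (hS τ hτ).1
  choose! I J hD using hex
  have hcard : Nat.card {c : ClassGroup (𝓞 K) // orderOf c = g} =
      (Finset.univ.filter (fun c : ClassGroup (𝓞 K) => orderOf c = g)).card := by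
    rw [Nat.card_eq_fintype_card, Fintype.card_subtype]
  rw [hcard]
  apply Finset.card_le_mul_card_image_of_maps_to (f := fun τ => cl (I τ))
  · intro τ hτ
    obtain ⟨s2, b1, b2⟩ := hS τ hτ
    rw [Finset.mem_filter]
    refine ⟨Finset.mem_univ _, ?_⟩
    apply orderOf_eq_of_pow_and_pow_div_prime hg ((hD τ hτ).clpow s2)
    intro q hq hqg hc
    apply hbad τ hτ
    exact bad_of_pow h (by omega) (Nat.mem_primeFactors.2 ⟨hq, hqg, hg.ne'⟩) s2 (hD τ hτ) hc
  · intro c _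
    apply fiber h hg.ne' hB0 hB hV _ I J (c := c)
    · intro τ hτ
      have hτ' := (Finset.mem_filter.1 hτ).1
      exact ⟨(hS τ hτ').1, hD τ hτ', (hS τ hτ').2⟩
    · intro τ hτ
      exact (Finset.mem_filter.1 hτ).2

end Pool.Agent.TH827.CG
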