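import Pool.Agent.TH827.CG.Core
import Pool.Agent.TH827.CO.Order

/-!
The main inequality for the classes of exact order `g` (after `CG.Core`).
-/

namespace Pool.Agent.TH827.CG

open Finset NumberField

/-- `F d` is the number of the ideal classes of exact order `g` of the quadratic field
`ℚ(√(-d))`. -/
def IsOrd (g : ℕ) (F : ℕ → ℕ) : Prop :=
  ∀ d : ℕ, 0 < d → Squarefree d → ∀ (K : Type) [Field K] [NumberField K],
    Module.finrank ℚ K = 2 → (∃ x : K, x ^ 2 = -(d : K)) →
      F d = Nat.card {c : ClassGroup (𝓞 K) // orderOf c = g}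

theorem core_order {p : ℕ} (hodd : Odd p) {L T X Z : ℕ} (hL : 2 ≤ L) (hLT : 4 * L ≤ T)
    (hT : 48 * T ^ 2 ≤ L ^ p) (hT6 : 16 ^ p * L ^ (2 * p) ≤ T ^ 6)
    (hX : (16 * L ^ 2) ^ p ≤ T ^ 2 * X) (hZ : 64 * L ^ 2 ≤ Z) {F : ℕ → ℕ} (hF : IsOrd p F) :
    (PR T).card * ((PR L).card ^ 2 - 2 * (PR L).card) ≤
      8 * (Z * (4 * (PR L).card ^ 2) + p * ((PR L).card ^ 2 * (4 * (4 * L) ^ (p / 3) + 1)) +
        ∑ d ∈ (Ioc Z X).filter Squarefree,
        (1 + 68 * Nat.sqrt (1024 * (L ^ 2) ^ 2 / d)) * F d) := by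
  classical
  have hp : p ≠ 0 := hodd.pos.ne'
  -- choice of n
  have hex : ∀ τ ∈ QQ L T, ∃ n : ℕ, 0 < n ∧ n < 3 * τ.1 ^ 2 ∧ n.Coprime (τ.2.1 * τ.2.2) ∧
      (τ.1 : ℤ) ^ 2 ∣ ((τ.2.1 * τ.2.2 : ℕ) : ℤ) ^ p - (n : ℤ) ^ 2 := by
    intro τ hτ
    unfold QQ at hτ
    rw [mem_sigma, mem_PR, mem_SP, mem_PR, mem_PR] at hτ
    obtain ⟨⟨ht1, ht2⟩, ⟨⟨ha1, ha2⟩, ⟨hb1, hb2⟩⟩, hne, hsq⟩ := hτ
    exact exists_n ht2 (by omega) ha2 hb2 (by omega) (by omega) (by omega) (by omega) hsq p
  choose! nn hn0 hn3 hncop hndv using hex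
  set W : Finset (ℕ × ℕ) := (QQ L T).image (fun τ => (τ.2.1 * τ.2.2, nn τ)) with hW
  -- properties of the elements of W
  have hP : ∀ w ∈ W, ∃ t a b : ℕ, t ∈ PR T ∧ a ∈ PR L ∧ b ∈ PR L ∧ a ≠ b ∧ w.1 = a * b ∧
      0 < w.2 ∧ w.2 ^ 2 < w.1 ^ p ∧ w.2.Coprime w.1 ∧ t ^ 2 ∣ w.1 ^ p - w.2 ^ 2 := by
    intro w hw
    rw [hW, mem_image] at hw
    obtain ⟨τ, hτ, rfl⟩ := hw
    have g1 := hn0 τ hτ
    have g2 := hn3 τ hτ
    have g3 := hncop τ hτ
    have g4 := hndv τ hτ
    unfold QQ at hτ
    rw [mem_sigma, mem_SP] at hτ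
    obtain ⟨ht, ⟨ha, hb⟩, hne, hsq⟩ := hτ
    have ha' := mem_PR.1 ha
    have hb' := mem_PR.1 hb
    have ht' := mem_PR.1 ht
    have hlt : (nn τ) ^ 2 < (τ.2.1 * τ.2.2) ^ p := by
      have h1 : nn τ < L ^ p := by
        have : 3 * τ.1 ^ 2 ≤ 48 * T ^ 2 := by nlinarith [ht'.1.2]
        omega
      have h2 : (nn τ) ^ 2 < (L ^ p) ^ 2 := Nat.pow_lt_pow_left h1 two_ne_zero
      have h3 : (L ^ p) ^ 2 = (L * L) ^ p := by rw [mul_pow]; ring
      have h4 : (L * L) ^ p ≤ (τ.2.1 * τ.2.2) ^ p :=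
        Nat.pow_le_pow_left (Nat.mul_le_mul ha'.1.1.le hb'.1.1.le) p
      omega
    refine ⟨τ.1, τ.2.1, τ.2.2, ht, ha, hb, hne, rfl, g1, hlt, g3, ?_⟩
    have : ((τ.1 ^ 2 : ℕ) : ℤ) ∣ (((τ.2.1 * τ.2.2) ^ p - (nn τ) ^ 2 : ℕ) : ℤ) := by
      rw [Nat.cast_sub hlt.le]
      push_cast
      push_cast at g4
      exact g4
    exact_mod_cast this
  -- at most four triples give the same pair
  have hfib : (QQ L T).card ≤ 4 * W.card := by
    apply card_le_mul_card_image
    intro w hw
    obtain ⟨t0, a0, b0, -, ha0, hb0, hne0, hw1, hw2, hlt, -, -⟩ := hP w hw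
    have ha0' := mem_PR.1 ha0
    have hb0' := mem_PR.1 hb0
    set N0 := w.1 ^ p - w.2 ^ 2 with hN0
    have hN0pos : 0 < N0 := by omega
    have hN0lt : N0 < T ^ 6 := by
      have h1 : w.1 ^ p ≤ (16 * L ^ 2) ^ p := by
        apply Nat.pow_le_pow_left
        rw [hw1]
        nlinarith [ha0'.1.2, hb0'.1.2, Nat.mul_le_mul ha0'.1.2 hb0'.1.2]
      have h2 : (16 * L ^ 2) ^ p = 16 ^ p * L ^ (2 * p) := by rw [mul_pow, pow_mul]
      have h3 : 0 < w.2 ^ 2 := by positivity
      omega
    set S1 : Finset ℕ := (PR T).filter (fun t => t ^ 2 ∣ N0) with hS1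
    have hS1c : S1.card ≤ 2 := by
      by_contra hcon
      push Not at hcon
      have h1 : ∏ t ∈ S1, t ^ 2 ∣ N0 := by
        apply Finset.prod_dvd_of_isRelPrime
        · intro x hx y hy hxy
          have hx' := (mem_PR.1 (mem_filter.1 (mem_coe.1 hx)).1).2
          have hy' := (mem_PR.1 (mem_filter.1 (mem_coe.1 hy)).1).2
          exact Nat.coprime_iff_isRelPrime.1
            (Nat.Coprime.pow 2 2 ((Nat.coprime_primes hx' hy').2 hxy))
        · intro x hx
          exact (mem_filter.1 hx).2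
      have h2 := Nat.le_of_dvd hN0pos h1
      have h3 : (T ^ 2) ^ S1.card ≤ ∏ t ∈ S1, t ^ 2 := by
        rw [← prod_const]
        apply prod_le_prod'
        intro t ht
        exact Nat.pow_le_pow_left (mem_PR.1 (mem_filter.1 ht).1).1.1.le 2
      have h4 : T ^ 6 ≤ (T ^ 2) ^ S1.card := by
        rw [← pow_mul]
        apply Nat.pow_le_pow_right (by omega) (by omega)
      omega
    have hS2c : (w.1.primeFactors).card ≤ 2 := by
      rw [hw1, Nat.primeFactors_mul ha0'.2.ne_zero hb0'.2.ne_zero, ha0'.2.primeFactors,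
        hb0'.2.primeFactors]
      exact (card_union_le _ _).trans (by simp)
    calc _ ≤ (S1 ×ˢ w.1.primeFactors).card := by
          apply card_le_card_of_injOn (fun τ => (τ.1, τ.2.1))
          · intro τ hτ
            have hτ' := mem_filter.1 (mem_coe.1 hτ)
            have hτQ := hτ'.1
            have hEq := hτ'.2
            have g4 := hndv τ hτQ
            unfold QQ at hτQ
            rw [mem_sigma, mem_SP] at hτQ
            obtain ⟨ht, ⟨ha, hb⟩, hne, hsq⟩ := hτQ
            have e1 : τ.2.1 * τ.2.2 = w.1 := congrArg Prod.fst hEq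
            have e2 : nn τ = w.2 := congrArg Prod.snd hEq
            rw [mem_coe, mem_product, hS1, mem_filter]
            refine ⟨⟨ht, ?_⟩, ?_⟩
            · rw [e1, e2] at g4
              have : ((τ.1 ^ 2 : ℕ) : ℤ) ∣ ((w.1 ^ p - w.2 ^ 2 : ℕ) : ℤ) := by
                rw [Nat.cast_sub hlt.le]
                push_cast
                exact g4
              exact_mod_cast this
            · show τ.2.1 ∈ w.1.primeFactors
              rw [Nat.mem_primeFactors, ← e1]
              refine ⟨(mem_PR.1 ha).2, dvd_mul_right _ _, ?_⟩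
              exact mul_ne_zero (mem_PR.1 ha).2.ne_zero (mem_PR.1 hb).2.ne_zero
          · rintro ⟨t, a, b⟩ hτ ⟨t', a', b'⟩ hτ' hEq
            have g1 := congrArg Prod.fst (mem_filter.1 (mem_coe.1 hτ)).2
            have g2 := congrArg Prod.fst (mem_filter.1 (mem_coe.1 hτ')).2
            have hQ := (mem_filter.1 (mem_coe.1 hτ)).1
            unfold QQ at hQ
            rw [mem_sigma, mem_SP] at hQ
            have ha : a ≠ 0 := (mem_PR.1 hQ.2.1.1).2.ne_zero
            obtain ⟨r1, r2⟩ := Prod.ext_iff.1 hEq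
            have r1 : t = t' := r1
            have r2 : a = a' := r2
            have g1 : a * b = w.1 := g1
            have g2 : a' * b' = w.1 := g2
            subst r1
            subst r2
            have : b = b' := Nat.eq_of_mul_eq_mul_left (Nat.pos_of_ne_zero ha) (g1.trans g2.symm)
            subst this
            rfl
      _ = S1.card * w.1.primeFactors.card := card_product _ _
      _ ≤ 2 * 2 := Nat.mul_le_mul hS1c hS2c
      _ = 4 := by norm_num
  -- squarefree parts
  have hsf : ∀ w ∈ W, ∃ d s : ℕ, s ^ 2 * d = w.1 ^ p - w.2 ^ 2 ∧ Squarefree d := by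
    intro w _
    obtain ⟨a, b, h1, h2⟩ := Nat.sq_mul_squarefree (w.1 ^ p - w.2 ^ 2)
    exact ⟨a, b, h1, h2⟩
  choose! dd ss hds hdsf using hsf
  have hfull : ∀ w ∈ W, Sol p (dd w) w.1 w.2 (ss w) ∧ 0 < dd w ∧ dd w ≤ X ∧ L ^ 2 < w.1 ∧
      w.1 ≤ 16 * L ^ 2 := by
    intro w hw
    obtain ⟨t, a, b, ht, ha, hb, hne, hw1, hw2, hlt, hcop, hdv⟩ := hP w hw
    have ha' := mem_PR.1 ha
    have hb' := mem_PR.1 hb
    have ht' := mem_PR.1 ht
    have e := hds w hw
    have hN0pos : 0 < w.1 ^ p - w.2 ^ 2 := by omega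
    have hspos : 0 < ss w := by
      rcases Nat.eq_zero_or_pos (ss w) with h | h
      · rw [h] at e; simp at e; omega
      · exact h
    have hdpos : 0 < dd w := by
      rcases Nat.eq_zero_or_pos (dd w) with h | h
      · rw [h] at e; simp at e; omega
      · exact h
    have hw16 : w.1 ≤ 16 * L ^ 2 := by
      rw [hw1]
      nlinarith [Nat.mul_le_mul ha'.1.2 hb'.1.2]
    have hwL : L ^ 2 < w.1 := by
      rw [hw1, sq]
      exact Nat.mul_lt_mul'' ha'.1.1 hb'.1.1
    refine ⟨⟨?_, ?_, hw2, hspos, hcop, by omega⟩, hdpos, ?_, hwL, hw16⟩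
    · rw [hw1]
      exact (ha'.2.odd_of_ne_two (by omega)).mul (hb'.2.odd_of_ne_two (by omega))
    · nlinarith
    · -- the bound for d
      have hts : t ∣ ss w := by
        by_contra hts
        have h1 : Nat.Coprime (t ^ 2) (ss w ^ 2) :=
          Nat.Coprime.pow 2 2 ((Nat.Prime.coprime_iff_not_dvd ht'.2).2 hts)
        have h2 : t ^ 2 ∣ ss w ^ 2 * dd w := by rw [e]; exact hdv
        have h3 : t ^ 2 ∣ dd w := h1.dvd_of_dvd_mul_left h2
        rw [sq] at h3
        have h4 := hdsf w hw t h3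
        rw [Nat.isUnit_iff] at h4
        exact ht'.2.one_lt.ne' h4
      have h5 : T < ss w := lt_of_lt_of_le ht'.1.1 (Nat.le_of_dvd hspos hts)
      have h6 : T ^ 2 * dd w ≤ ss w ^ 2 * dd w :=
        Nat.mul_le_mul_right _ (Nat.pow_le_pow_left h5.le 2)
      have h7 : w.1 ^ p ≤ (16 * L ^ 2) ^ p := Nat.pow_le_pow_left hw16 p
      have h8 : T ^ 2 * dd w ≤ T ^ 2 * X := by omega
      have hT0 : 0 < T := by omega
      exact Nat.le_of_mul_le_mul_left h8 (by positivity)
  have hWsum : W.card ≤ ∑ d ∈ Icc 1 Z, (W.filter (fun w => dd w = d)).card +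
      ∑ d ∈ (Ioc Z X).filter Squarefree, (W.filter (fun w => dd w = d)).card := by
    have h1 : W.card = ∑ d ∈ (Icc 1 X).filter Squarefree, (W.filter (fun w => dd w = d)).card := by
      apply card_eq_sum_card_fiberwise
      intro w hw
      have hw := mem_coe.1 hw
      rw [mem_coe, mem_filter, mem_Icc]
      exact ⟨⟨(hfull w hw).2.1, (hfull w hw).2.2.1⟩, hdsf w hw⟩
    have h2 : (Icc 1 X).filter Squarefree ⊆ Icc 1 Z ∪ (Ioc Z X).filter Squarefree := by
      intro d hd
      rw [mem_filter, mem_Icc] at hd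
      rw [mem_union, mem_filter, mem_Icc, mem_Ioc]
      by_cases hdZ : d ≤ Z
      · left; exact ⟨hd.1.1, hdZ⟩
      · right; exact ⟨⟨by omega, hd.1.2⟩, hd.2⟩
    have h3 : Disjoint (Icc 1 Z) ((Ioc Z X).filter Squarefree) := by
      rw [disjoint_left]
      intro d h4 h5
      rw [mem_Icc] at h4
      rw [mem_filter, mem_Ioc] at h5
      omega
    rw [h1, ← sum_union h3]
    exact sum_le_sum_of_subset h2
  have hsmall : ∑ d ∈ Icc 1 Z, (W.filter (fun w => dd w = d)).card ≤ Z * (4 * (PR L).card ^ 2) := by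
    calc _ ≤ ∑ _d ∈ Icc 1 Z, 4 * (PR L).card ^ 2 := by
          apply sum_le_sum
          intro d hd
          rw [mem_Icc] at hd
          have himg : ((PR L ×ˢ PR L).image (fun x => x.1 * x.2)).card ≤ (PR L).card ^ 2 :=
            card_image_le.trans (by rw [card_product, sq])
          refine le_trans ?_ (Nat.mul_le_mul_left 4 himg)
          apply card_le_mul_card_image_of_maps_to (f := fun w : ℕ × ℕ => w.1)
          · intro w hw
            obtain ⟨t, a, b, ht, ha, hb, hne, hw1, -⟩ := hP w (mem_filter.1 hw).1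
            rw [mem_image]
            exact ⟨(a, b), by rw [mem_product]; exact ⟨ha, hb⟩, hw1.symm⟩
          · intro m _
            rcases (((W.filter (fun w => dd w = d))).filter (fun w => w.1 = m)).eq_empty_or_nonempty
              with hE | ⟨w0, hw0⟩
            · rw [hE]; simp
            have hw0' := mem_filter.1 hw0
            have hw0W := (mem_filter.1 hw0'.1).1
            obtain ⟨t, a, b, ht, ha, hb, hne, hw1, -⟩ := hP w0 hw0W
            have hm : m = a * b := by rw [← hw0'.2, hw1]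
            have hinj : Set.InjOn (fun w : ℕ × ℕ => (w.2, ss w))
                (((W.filter (fun w => dd w = d)).filter (fun w => w.1 = m) : Finset (ℕ × ℕ)) :
                  Set (ℕ × ℕ)) := by
              intro x hx y hy hxy
              have hx' := (mem_filter.1 (mem_coe.1 hx)).2
              have hy' := (mem_filter.1 (mem_coe.1 hy)).2
              have e2 := congrArg Prod.fst hxy
              exact Prod.ext (hx'.trans hy'.symm) e2
            rw [← card_image_of_injOn hinj]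
            apply small_four (mem_PR.1 ha).2 (mem_PR.1 hb).2 hne hp hd.1
            intro x hx
            rw [mem_image] at hx
            obtain ⟨w, hw, rfl⟩ := hx
            have hw' := mem_filter.1 hw
            have hw'' := mem_filter.1 hw'.1
            have := (hfull w hw''.1).1
            rw [hw''.2, hw'.2, hm] at this
            exact this
      _ = _ := by rw [sum_const, Nat.card_Icc, smul_eq_mul]; simp
  set E : Finset (ℕ × ℕ) := W.filter (fun w => Bad p w.1 w.2) with hE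
  have hEcard : E.card ≤ p * ((PR L).card ^ 2 * (4 * (4 * L) ^ (p / 3) + 1)) := by
    set U : ℤ := 2 * (4 * (L : ℤ)) ^ (p / 3) with hU
    have hU0 : 0 ≤ U := by positivity
    set MM := (PR L ×ˢ PR L).image (fun x => x.1 * x.2) with hMM
    have himg : MM.card ≤ (PR L).card ^ 2 := card_image_le.trans (by rw [card_product, sq])
    have hpf : p.primeFactors.card ≤ p := by
      have h1 : p.primeFactors ⊆ Finset.Icc 1 p := by
        intro q hq
        rw [Finset.mem_Icc]
        exact ⟨(Nat.prime_of_mem_primeFactors hq).one_lt.le,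
          Nat.le_of_dvd (Nat.pos_of_ne_zero hp) (Nat.dvd_of_mem_primeFactors hq)⟩
      exact (card_le_card h1).trans (by simp)
    have hIcc : (Finset.Icc (-U) U).card = 4 * (4 * L) ^ (p / 3) + 1 := by
      rw [Int.card_Icc]
      have e : U + 1 - -U = ((4 * (4 * L) ^ (p / 3) + 1 : ℕ) : ℤ) := by
        rw [hU]; push_cast; ring
      rw [e, Int.toNat_natCast]
    have hsub : E ⊆ (p.primeFactors ×ˢ (MM ×ˢ Finset.Icc (-U) U)).image
        (fun x => (x.2.1, (|luc ((x.2.1 : ℤ) ^ (p / x.1)) x.2.2 x.1|).toNat / 2)) := by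
      intro w hw
      rw [hE, mem_filter] at hw
      obtain ⟨hwW, q, hq, u, hu1, hu2⟩ := hw
      obtain ⟨t, a, b, ht, ha, hb, hne, hw1, -⟩ := hP w hwW
      have hfw := hfull w hwW
      rw [mem_image]
      refine ⟨(q, w.1, u), ?_, ?_⟩
      · rw [mem_product, mem_product, mem_Icc]
        refine ⟨hq, ?_, ?_⟩
        · rw [hMM, mem_image]
          exact ⟨(a, b), by rw [mem_product]; exact ⟨ha, hb⟩, hw1.symm⟩
        · show -U ≤ u ∧ u ≤ U
          rw [← abs_le]
          apply abs_le_of_sq_le_sq _ hU0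
          have hqp := Nat.prime_of_mem_primeFactors hq
          have hq3 : 3 ≤ q := by
            have h2 := hqp.two_le
            have hqo : Odd q := hodd.of_dvd_nat (Nat.dvd_of_mem_primeFactors hq)
            rcases hqo with ⟨k, hk⟩
            omega
          have h1 : w.1 ^ (p / q) ≤ (16 * L ^ 2) ^ (p / 3) := by
            calc w.1 ^ (p / q) ≤ (16 * L ^ 2) ^ (p / q) := Nat.pow_le_pow_left hfw.2.2.2.2 _
              _ ≤ (16 * L ^ 2) ^ (p / 3) := by
                apply Nat.pow_le_pow_right (by positivity)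
                exact Nat.div_le_div_left hq3 (by norm_num)
          have h2 : ((w.1 : ℤ)) ^ (p / q) ≤ (16 * (L : ℤ) ^ 2) ^ (p / 3) := by exact_mod_cast h1
          calc u ^ 2 ≤ 4 * (w.1 : ℤ) ^ (p / q) := hu1
            _ ≤ 4 * (16 * (L : ℤ) ^ 2) ^ (p / 3) := by linarith
            _ = U ^ 2 := by
              have e : (16 * (L : ℤ) ^ 2) = (4 * L) ^ 2 := by ring
              rw [hU, e, ← pow_mul, mul_comm 2 (p / 3), pow_mul]
              ring
      · show (w.1, (|luc ((w.1 : ℤ) ^ (p / q)) u q|).toNat / 2) = w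
        rw [← hu2]
        apply Prod.ext
        · rfl
        · show (2 * (w.2 : ℤ)).toNat / 2 = w.2
          omega
    calc E.card ≤ _ := card_le_card hsub
      _ ≤ (p.primeFactors ×ˢ (MM ×ˢ Finset.Icc (-U) U)).card := card_image_le
      _ = p.primeFactors.card * (MM.card * (4 * (4 * L) ^ (p / 3) + 1)) := by
        rw [card_product, card_product, hIcc]
      _ ≤ _ := Nat.mul_le_mul hpf (Nat.mul_le_mul_right _ himg)
  have hlarge : ∑ d ∈ (Ioc Z X).filter Squarefree, (W.filter (fun w => dd w = d)).card ≤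
      E.card + ∑ d ∈ (Ioc Z X).filter Squarefree,
        (1 + 68 * Nat.sqrt (1024 * (L ^ 2) ^ 2 / d)) * F d := by
    have hsplit : ∑ d ∈ (Ioc Z X).filter Squarefree, (W.filter (fun w => dd w = d)).card ≤
        ∑ d ∈ (Ioc Z X).filter Squarefree, (E.filter (fun w => dd w = d)).card +
        ∑ d ∈ (Ioc Z X).filter Squarefree,
          ((W.filter (fun w => dd w = d)).filter (fun w => ¬ Bad p w.1 w.2)).card := by
      rw [← sum_add_distrib]
      apply sum_le_sum
      intro d _
      rw [← card_filter_add_card_filter_not (s := W.filter (fun w => dd w = d))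
        (p := fun w => Bad p w.1 w.2)]
      apply Nat.add_le_add_right
      apply card_le_card
      intro w hw
      rw [mem_filter, mem_filter] at hw
      rw [mem_filter, hE, mem_filter]
      exact ⟨⟨hw.1.1, hw.2⟩, hw.1.2⟩
    have hEsum : ∑ d ∈ (Ioc Z X).filter Squarefree, (E.filter (fun w => dd w = d)).card ≤
        E.card := by
      rw [← card_biUnion]
      · apply card_le_card
        intro w hw
        rw [mem_biUnion] at hw
        obtain ⟨d, _, hw⟩ := hw
        exact (mem_filter.1 hw).1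
      · intro x _ y _ hxy
        rw [Function.onFun, disjoint_left]
        intro w h1 h2
        exact hxy ((mem_filter.1 h1).2.symm.trans (mem_filter.1 h2).2)
    refine hsplit.trans (Nat.add_le_add hEsum ?_)
    apply sum_le_sum
    intro d hd
    rw [mem_filter, mem_Ioc] at hd
    have hd0 : 0 < d := by omega
    obtain ⟨K, iK, iN, r, hIQ⟩ := exists_IQ d hd0 hd.2
    have hFd : F d = Nat.card {c : ClassGroup (𝓞 K) // orderOf c = p} :=
      hF d hd0 hd.2 K hIQ.fr ⟨r, hIQ.sq⟩
    rw [hFd]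
    have hinj : Set.InjOn (fun w : ℕ × ℕ => ((w.1, w.2, ss w) : ℕ × ℕ × ℕ))
        ((((W.filter (fun w => dd w = d)).filter (fun w => ¬ Bad p w.1 w.2)) :
          Finset (ℕ × ℕ)) : Set (ℕ × ℕ)) := by
      intro x _ y _ hxy
      have hxy' : ((x.1, x.2, ss x) : ℕ × ℕ × ℕ) = (y.1, y.2, ss y) := hxy
      have e1 : x.1 = y.1 := (Prod.ext_iff.1 hxy').1
      have e2 : x.2 = y.2 := (Prod.ext_iff.1 (Prod.ext_iff.1 hxy').2).1
      exact Prod.ext e1 e2
    rw [← card_image_of_injOn hinj]
    apply main_count_order hIQ hodd.pos (B := L ^ 2) (by positivity) (by omega)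
    · have h1 := Nat.lt_succ_sqrt' (1024 * (L ^ 2) ^ 2 / d)
      rw [Nat.succ_eq_add_one] at h1
      exact (Nat.div_lt_iff_lt_mul hd0).1 h1
    · intro τ hτ
      rw [mem_image] at hτ
      obtain ⟨w, hw, rfl⟩ := hτ
      have hw' := mem_filter.1 (mem_filter.1 hw).1
      have := hfull w hw'.1
      rw [hw'.2] at this
      exact ⟨this.1, this.2.2.2.1, this.2.2.2.2⟩
    · intro τ hτ
      rw [mem_image] at hτ
      obtain ⟨w, hw, rfl⟩ := hτ
      exact (mem_filter.1 hw).2
  have hQ := QQ_card (L := L) (T := T) hLT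
  calc (PR T).card * ((PR L).card ^ 2 - 2 * (PR L).card) ≤ 2 * (QQ L T).card := hQ
    _ ≤ 2 * (4 * W.card) := Nat.mul_le_mul_left 2 hfib
    _ = 8 * W.card := by ring
    _ ≤ 8 * (Z * (4 * (PR L).card ^ 2) + (E.card + ∑ d ∈ (Ioc Z X).filter Squarefree,
        (1 + 68 * Nat.sqrt (1024 * (L ^ 2) ^ 2 / d)) * F d)) :=
          Nat.mul_le_mul_left 8 (hWsum.trans (Nat.add_le_add hsmall hlarge))
    _ ≤ _ := by
      apply Nat.mul_le_mul_left
      rw [← add_assoc]
      apply Nat.add_le_add_right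
      exact Nat.add_le_add_left hEcard _

end Pool.Agent.TH827.CG
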