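import Pool.Agent.TH827.CG.Asym
import Pool.Agent.TH827.CO.CoreO

/-!
The main inequality for the classes of exact order, with explicit parameters (after `CG.Asym`).
-/

namespace Pool.Agent.TH827.CG

open Finset NumberField Filter

lemma sixty (p : ℕ) : (8 ^ p * 1000) ^ 2 = 1000000 * 64 ^ p := by
  have h : (64 : ℕ) ^ p = (8 ^ p) ^ 2 := by
    rw [← pow_mul, mul_comm p 2, pow_mul]
    norm_num
  rw [h]; ring

/-- the weighted sum over `(Z, X]`. -/
noncomputable def WO (F : ℕ → ℕ) (L Z X : ℕ) : ℝ :=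
  ∑ d ∈ (Ioc Z X).filter Squarefree, (1 + 2176 * ((L : ℝ) ^ 2 / Real.sqrt d)) * (F d : ℝ)

lemma core_real_order {p : ℕ} (hodd : Odd p) {L T X Z : ℕ} (hL : 2 ≤ L) (hLT : 4 * L ≤ T)
    (hT : 48 * T ^ 2 ≤ L ^ p) (hT6 : 16 ^ p * L ^ (2 * p) ≤ T ^ 6)
    (hX : (16 * L ^ 2) ^ p ≤ T ^ 2 * X) (hZ : 64 * L ^ 2 ≤ Z) (hZP : 64 * Z ≤ (PR T).card)
    (hEP : 64 * (p * (4 * (4 * L) ^ (p / 3) + 1)) ≤ (PR T).card)
    (hn : 8 ≤ (PR L).card) {F : ℕ → ℕ} (hF : IsOrd p F) :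
    ((PR T).card : ℝ) * ((PR L).card : ℝ) ^ 2 ≤ 64 * WO F L Z X := by
  have h := core_order hodd hL hLT hT hT6 hX hZ hF
  set P := (PR T).card
  set n := (PR L).card
  have h1 : ((P * (n ^ 2 - 2 * n) : ℕ) : ℝ) = (P : ℝ) * ((n : ℝ) ^ 2 - 2 * n) := by
    rw [Nat.cast_mul, Nat.cast_sub (by nlinarith)]
    push_cast; ring
  have h2 : ((∑ d ∈ (Ioc Z X).filter Squarefree,
        (1 + 68 * Nat.sqrt (1024 * (L ^ 2) ^ 2 / d)) * F d : ℕ) : ℝ) ≤ WO F L Z X := by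
    unfold WO
    push_cast
    apply sum_le_sum
    intro d hd
    rw [mem_filter, mem_Ioc] at hd
    have hd0 : 0 < d := by omega
    apply mul_le_mul_of_nonneg_right _ (Nat.cast_nonneg _)
    have hdr : (0 : ℝ) < d := by exact_mod_cast hd0
    have h3 : ((Nat.sqrt (1024 * (L ^ 2) ^ 2 / d) : ℕ) : ℝ) ≤ 32 * ((L : ℝ) ^ 2 / Real.sqrt d) := by
      calc ((Nat.sqrt (1024 * (L ^ 2) ^ 2 / d) : ℕ) : ℝ)
          ≤ Real.sqrt ((1024 * (L ^ 2) ^ 2 / d : ℕ) : ℝ) := Real.nat_sqrt_le_real_sqrt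
        _ ≤ Real.sqrt (((1024 * (L ^ 2) ^ 2 : ℕ) : ℝ) / d) :=
            Real.sqrt_le_sqrt Nat.cast_div_le
        _ = 32 * ((L : ℝ) ^ 2 / Real.sqrt d) := by
            rw [Real.sqrt_div' _ hdr.le]
            have : Real.sqrt ((1024 * (L ^ 2) ^ 2 : ℕ) : ℝ) = 32 * (L : ℝ) ^ 2 := by
              rw [show ((1024 * (L ^ 2) ^ 2 : ℕ) : ℝ) = (32 * (L : ℝ) ^ 2) ^ 2 by push_cast; ring]
              exact Real.sqrt_sq (by positivity)
            rw [this]; ring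
    linarith
  have h3 : ((P * (n ^ 2 - 2 * n) : ℕ) : ℝ) ≤ ((8 * (Z * (4 * n ^ 2) +
      p * (n ^ 2 * (4 * (4 * L) ^ (p / 3) + 1)) + ∑ d ∈ (Ioc Z X).filter Squarefree,
        (1 + 68 * Nat.sqrt (1024 * (L ^ 2) ^ 2 / d)) * F d) : ℕ) : ℝ) := by
    exact_mod_cast h
  rw [h1] at h3
  rw [Nat.cast_mul, Nat.cast_add, Nat.cast_add] at h3
  have h4' : ((p * (n ^ 2 * (4 * (4 * L) ^ (p / 3) + 1)) : ℕ) : ℝ) ≤ (P : ℝ) * (n : ℝ) ^ 2 / 64 := by
    have t1 : ((64 * (p * (4 * (4 * L) ^ (p / 3) + 1)) : ℕ) : ℝ) ≤ P := by exact_mod_cast hEP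
    have t2 : ((p * (n ^ 2 * (4 * (4 * L) ^ (p / 3) + 1)) : ℕ) : ℝ) =
        ((64 * (p * (4 * (4 * L) ^ (p / 3) + 1)) : ℕ) : ℝ) * (n : ℝ) ^ 2 / 64 := by
      push_cast; ring
    rw [t2]
    gcongr
  have h4 : ((Z * (4 * n ^ 2) : ℕ) : ℝ) ≤ (P : ℝ) * (n : ℝ) ^ 2 / 16 := by
    have : (64 * Z : ℝ) ≤ P := by exact_mod_cast hZP
    push_cast
    nlinarith [sq_nonneg (n : ℝ)]
  have h5 : (8 : ℝ) ≤ n := by exact_mod_cast hn
  have hP0 : (0 : ℝ) ≤ P := Nat.cast_nonneg _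
  have h6 : (P : ℝ) * (2 * n) ≤ (P : ℝ) * ((n : ℝ) ^ 2 / 4) :=
    mul_le_mul_of_nonneg_left (by nlinarith) hP0
  rw [Nat.cast_ofNat] at h3
  nlinarith

/-- the parameters. -/
theorem params_order {p : ℕ} (hp5 : 5 ≤ p) (hodd : Odd p) : ∃ c : ℝ, 0 < c ∧ ∃ L0 : ℕ, 3 ≤ L0 ∧ ∀ L : ℕ, L0 ≤ L →
    ∃ Z : ℕ, 64 * L ^ 2 ≤ Z ∧ c * (L : ℝ) ^ ((p : ℝ) / 2) / Real.log L ≤ Z ∧
      ∀ F : ℕ → ℕ, IsOrd p F →
        c * (L : ℝ) ^ (2 + (p : ℝ) / 2) / (Real.log L) ^ 3 ≤ WO F L Z (200 * 16 ^ p * L ^ p) := by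
  obtain ⟨N0, hN04, hN0⟩ := PR_card
  have hp0 : (0 : ℝ) < p := by exact_mod_cast (by omega : 0 < p)
  -- eventually facts
  have hlogsmall : ∀ᶠ L : ℕ in atTop, (1000000 * (p : ℝ)) * Real.log L ≤ (L : ℝ) ^ (1 / 2 : ℝ) := by
    have h1 := (isLittleO_log_rpow_atTop (r := 1 / 2) (by norm_num)).bound
      (show (0 : ℝ) < 1 / (1000000 * (p : ℝ)) by positivity)
    have h2 := tendsto_natCast_atTop_atTop (R := ℝ) |>.eventually h1
    filter_upwards [h2, eventually_ge_atTop 1] with L hL hL1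
    have hL1' : (1 : ℝ) ≤ L := by exact_mod_cast hL1
    rw [Real.norm_of_nonneg (Real.log_nonneg hL1'),
      Real.norm_of_nonneg (Real.rpow_nonneg (by linarith) _)] at hL
    calc (1000000 * (p : ℝ)) * Real.log L ≤ (1000000 * (p : ℝ)) * (1 / (1000000 * (p : ℝ)) * (L : ℝ) ^ (1 / 2 : ℝ)) := by
          gcongr
      _ = _ := by field_simp
  obtain ⟨L1, hL1⟩ := eventually_atTop.1 hlogsmall
  refine ⟨1 / (100000 * p), by positivity, max (max L1 N0) (1000000 * 64 ^ p), ?_, fun L hL => ?_⟩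
  · have : 0 < 64 ^ p := by positivity
    refine le_trans ?_ (le_max_right _ _)
    omega
  have hLL1 : L1 ≤ L := (le_max_left _ _).trans ((le_max_left _ _).trans hL)
  have hLN0 : N0 ≤ L := (le_max_right _ _).trans ((le_max_left _ _).trans hL)
  have hLbig64 : 1000000 * 64 ^ p ≤ L := (le_max_right _ _).trans hL
  have hLbig : 1000000 * 16 ^ p ≤ L :=
    (Nat.mul_le_mul_left _ (Nat.pow_le_pow_left (by norm_num) p)).trans hLbig64
  have h16 : 1 ≤ 16 ^ p := Nat.one_le_pow _ _ (by norm_num)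
  have hL6 : 1000000 ≤ L := by nlinarith
  have hLr : (1000000 : ℝ) ≤ L := by exact_mod_cast hL6
  have hLr0 : (0 : ℝ) < L := by linarith
  have hlogL : 1 ≤ Real.log L := by
    rw [Real.le_log_iff_exp_le hLr0]
    linarith [Real.exp_one_lt_d9]
  have hsm := hL1 L hLL1
  set a := L ^ p with ha
  have haL5 : L ^ 5 ≤ a := Nat.pow_le_pow_right (by omega) hp5
  set T := Nat.sqrt (a / 48) with hTdef
  have hT48 : 48 * T ^ 2 ≤ a := by
    have h1 : T ^ 2 ≤ a / 48 := Nat.sqrt_le' _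
    omega
  have hT1 : a < 48 * (T + 1) ^ 2 := by
    have h1 : a / 48 < (T + 1) ^ 2 := Nat.lt_succ_sqrt' _
    omega
  have hTpos : 0 < T := by
    rw [hTdef, Nat.sqrt_pos]
    have : 48 ≤ a := by
      have : (1000000 : ℕ) ^ 5 ≤ L ^ 5 := Nat.pow_le_pow_left hL6 5
      omega
    omega
  have haT : a ≤ 200 * T ^ 2 := by nlinarith
  have hTr : (a : ℝ) ≤ 200 * (T : ℝ) ^ 2 := by exact_mod_cast haT
  -- T is at least L^2 * 100
  have hL5T : (L : ℝ) ^ 5 ≤ 200 * (T : ℝ) ^ 2 := by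
    refine le_trans ?_ hTr
    exact_mod_cast haL5
  have hhalf : (L : ℝ) ^ ((p : ℝ) / 2) ≤ 15 * T := by
    have h1 : ((L : ℝ) ^ ((p : ℝ) / 2)) ^ 2 = (a : ℝ) := by
      rw [ha, ← Real.rpow_natCast, ← Real.rpow_mul hLr0.le]
      rw [show (p : ℝ) / 2 * ((2 : ℕ) : ℝ) = (p : ℝ) by push_cast; ring, Real.rpow_natCast]
      push_cast; rfl
    apply le_of_sq_le_sq (by rw [h1]; nlinarith) (by positivity)
  have hhalf5 : (L : ℝ) ^ 2 * (L : ℝ) ^ (1 / 2 : ℝ) ≤ (L : ℝ) ^ ((p : ℝ) / 2) := by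
    rw [← Real.rpow_natCast, ← Real.rpow_add hLr0]
    apply Real.rpow_le_rpow_of_exponent_le (by linarith)
    have : (5 : ℝ) ≤ p := by exact_mod_cast hp5
    push_cast; linarith
  have hTL : (L : ℝ) ^ 2 ≤ T := by
    have h1 : 1000000 * (p : ℝ) * Real.log L * (L : ℝ) ^ 2 ≤ 15 * T := by nlinarith [sq_nonneg (L : ℝ)]
    have h2 : (15 : ℝ) * (L : ℝ) ^ 2 ≤ 1000000 * (p : ℝ) * Real.log L * (L : ℝ) ^ 2 := by
      have : (5 : ℝ) ≤ p := by exact_mod_cast hp5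
      have : (15 : ℝ) ≤ 1000000 * (p : ℝ) * Real.log L := by nlinarith
      nlinarith [sq_nonneg (L : ℝ)]
    linarith
  have hTLn : L ^ 2 ≤ T := by exact_mod_cast hTL
  have hLT : 4 * L ≤ T := by nlinarith
  -- log T ≤ p log L
  have hTr0 : (0 : ℝ) < T := by exact_mod_cast hTpos
  have hlogT : Real.log T ≤ p * Real.log L := by
    rw [← Real.log_pow]
    apply Real.log_le_log hTr0
    have : T ≤ a := by nlinarith
    exact_mod_cast this
  have hPT := hN0 T (by nlinarith)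
  have hnL := hN0 L hLN0
  set P := (PR T).card with hP
  set n := (PR L).card with hn
  have hPlow : (L : ℝ) ^ ((p : ℝ) / 2) ≤ 30 * p * Real.log L * P := by
    have h1 : (T : ℝ) ≤ 2 * (p * Real.log L) * P := by
      refine hPT.trans ?_
      gcongr
    calc (L : ℝ) ^ ((p : ℝ) / 2) ≤ 15 * T := hhalf
      _ ≤ 15 * (2 * (p * Real.log L) * P) := by gcongr
      _ = _ := by ring
  have hp5r : (5 : ℝ) ≤ p := by exact_mod_cast hp5
  have hplog : 0 < (p : ℝ) * Real.log L := by positivity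
  -- P is large
  have hPbig : 30000 * (L : ℝ) ^ 2 ≤ P := by
    have h1 : 1000000 * (p : ℝ) * Real.log L * (L : ℝ) ^ 2 ≤ 30 * p * Real.log L * P := by
      nlinarith [sq_nonneg (L : ℝ)]
    have h2 : (p * Real.log L) * (1000000 * (L : ℝ) ^ 2) ≤ (p * Real.log L) * (30 * P) := by linarith
    have h3 := le_of_mul_le_mul_left h2 hplog
    nlinarith [sq_nonneg (L : ℝ)]
  have hZ64 : 64 * L ^ 2 ≤ P / 64 := by
    rw [Nat.le_div_iff_mul_le (by norm_num)]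
    have : ((64 * L ^ 2 * 64 : ℕ) : ℝ) ≤ P := by push_cast; nlinarith [sq_nonneg (L : ℝ)]
    exact_mod_cast this
  have hZr : (P : ℝ) ≤ 128 * ((P / 64 : ℕ) : ℝ) := by
    have h1 : P < 64 * (P / 64) + 64 := by omega
    have h2 : 64 ≤ 64 * (P / 64) := by nlinarith
    have h3 : P ≤ 128 * (P / 64) := by omega
    exact_mod_cast h3
  have hn8 : 8 ≤ n := by
    have h1 : (L : ℝ) ^ (1 / 2 : ℝ) * (L : ℝ) ^ (1 / 2 : ℝ) = L := by
      rw [← Real.rpow_add hLr0]; norm_num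
    have h2 : 1000 ≤ (L : ℝ) ^ (1 / 2 : ℝ) := by
      have : (1000 : ℝ) = (1000000 : ℝ) ^ (1 / 2 : ℝ) := by
        rw [show (1000000 : ℝ) = 1000 ^ (2 : ℝ) by norm_num, ← Real.rpow_mul (by norm_num)]
        norm_num
      rw [this]
      exact Real.rpow_le_rpow (by norm_num) hLr (by norm_num)
    have h3 : Real.log L ≤ (L : ℝ) ^ (1 / 2 : ℝ) / 1000 := by
      have : (1000 : ℝ) * Real.log L ≤ (1000000 * (p : ℝ)) * Real.log L := by
        apply mul_le_mul_of_nonneg_right _ (by linarith)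
        nlinarith
      linarith
    have h4 : (8 : ℝ) ≤ n := by
      by_contra hcon
      push Not at hcon
      have hn0 : (0 : ℝ) ≤ n := Nat.cast_nonneg _
      nlinarith
    exact_mod_cast h4
  have hEP : 64 * (p * (4 * (4 * L) ^ (p / 3) + 1)) ≤ P := by
    set k := p / 3 with hk
    -- T ≥ L^k L / 15
    have e1 : (L : ℝ) ^ k * L ≤ 15 * T := by
      have e2 : (L : ℝ) ^ (2 * k + 2) ≤ 200 * (T : ℝ) ^ 2 := by
        refine le_trans ?_ hTr
        have : L ^ (2 * k + 2) ≤ a := Nat.pow_le_pow_right (by omega) (by omega)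
        exact_mod_cast this
      have e3 : ((L : ℝ) ^ k * L) ^ 2 = (L : ℝ) ^ (2 * k + 2) := by ring
      apply le_of_sq_le_sq (by rw [e3]; nlinarith) (by positivity)
    have e4 : (L : ℝ) ^ k * L ≤ 30 * p * Real.log L * P := by
      have h1 : (T : ℝ) ≤ 2 * (p * Real.log L) * P := by
        refine hPT.trans ?_
        gcongr
      calc (L : ℝ) ^ k * L ≤ 15 * T := e1
        _ ≤ 15 * (2 * (p * Real.log L) * P) := by gcongr
        _ = _ := by ring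
    have h8 : ((p * 4 ^ p * 1000 : ℕ) : ℝ) ≤ (L : ℝ) ^ (1 / 2 : ℝ) := by
      have t1 : (p * 4 ^ p * 1000) ^ 2 ≤ L := by
        have t2 : p < 2 ^ p := Nat.lt_two_pow_self
        have t3 : p * 4 ^ p ≤ 8 ^ p := by
          calc p * 4 ^ p ≤ 2 ^ p * 4 ^ p := Nat.mul_le_mul_right _ t2.le
            _ = 8 ^ p := by rw [← mul_pow]; norm_num
        calc (p * 4 ^ p * 1000) ^ 2 ≤ (8 ^ p * 1000) ^ 2 :=
              Nat.pow_le_pow_left (Nat.mul_le_mul_right _ t3) 2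
          _ = 1000000 * 64 ^ p := sixty p
          _ ≤ L := hLbig64
      have t4 : (((p * 4 ^ p * 1000 : ℕ) : ℝ) ^ 2) ≤ L := by exact_mod_cast t1
      have t5 : ((L : ℝ) ^ (1 / 2 : ℝ)) ^ 2 = L := by
        rw [← Real.rpow_natCast, ← Real.rpow_mul hLr0.le]; norm_num
      apply le_of_sq_le_sq (by rw [t5]; exact t4) (by positivity)
    have hLh : (L : ℝ) ^ (1 / 2 : ℝ) * (L : ℝ) ^ (1 / 2 : ℝ) = L := by
      rw [← Real.rpow_add hLr0]; norm_num
    set R := (L : ℝ) ^ (1 / 2 : ℝ) with hR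
    have hR0 : 0 < R := by positivity
    have hk4 : ((4 * L : ℕ) : ℝ) ^ k ≤ 4 ^ p * (L : ℝ) ^ k := by
      push_cast
      rw [mul_pow]
      apply mul_le_mul_of_nonneg_right _ (by positivity)
      apply pow_le_pow_right₀ (by norm_num)
      omega
    have hLk1 : 1 ≤ (L : ℝ) ^ k := one_le_pow₀ (by linarith)
    have h4p1 : (1 : ℝ) ≤ 4 ^ p := one_le_pow₀ (by norm_num)
    have h9 : ((64 * (p * (4 * (4 * L) ^ k + 1)) : ℕ) : ℝ) ≤ 320 * p * 4 ^ p * (L : ℝ) ^ k := by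
      have : (1 : ℝ) ≤ 4 ^ p * (L : ℝ) ^ k := one_le_mul_of_one_le_of_one_le h4p1 hLk1
      push_cast at hk4 ⊢
      have h10 : 4 * (4 * (L : ℝ)) ^ k + 1 ≤ 5 * (4 ^ p * (L : ℝ) ^ k) := by linarith
      calc 64 * ((p : ℝ) * (4 * (4 * (L : ℝ)) ^ k + 1)) ≤ 64 * ((p : ℝ) * (5 * (4 ^ p * (L : ℝ) ^ k))) := by
            gcongr
        _ = _ := by ring
    have hfin : 320 * (p : ℝ) * 4 ^ p * (L : ℝ) ^ k ≤ P := by
      have g1 : (30 * p * Real.log L) * (320 * (p : ℝ) * 4 ^ p * (L : ℝ) ^ k) ≤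
          (30 * p * Real.log L) * P := by
        refine le_trans ?_ e4
        push_cast at h8
        have g2 : 9600 * (p : ℝ) * Real.log L ≤ R := by
          have : 9600 * (p : ℝ) * Real.log L ≤ 1000000 * (p : ℝ) * Real.log L := by
            apply mul_le_mul_of_nonneg_right _ (by linarith)
            nlinarith
          linarith
        have g3 : (p : ℝ) * 4 ^ p ≤ R := by
          have : (0 : ℝ) ≤ (p : ℝ) * 4 ^ p := by positivity
          linarith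
        calc (30 * p * Real.log L) * (320 * (p : ℝ) * 4 ^ p * (L : ℝ) ^ k)
            = (9600 * (p : ℝ) * Real.log L) * ((p : ℝ) * 4 ^ p) * (L : ℝ) ^ k := by ring
          _ ≤ R * R * (L : ℝ) ^ k := by gcongr
          _ = (L : ℝ) ^ k * L := by rw [hLh]; ring
      exact le_of_mul_le_mul_left g1 (by positivity)
    exact_mod_cast h9.trans hfin
  refine ⟨P / 64, hZ64, ?_, fun F hF => ?_⟩
  · rw [div_le_iff₀ (by linarith), div_mul_eq_mul_div, div_le_iff₀ (by positivity), one_mul]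
    calc (L : ℝ) ^ ((p : ℝ) / 2) ≤ 30 * p * Real.log L * P := hPlow
      _ ≤ 30 * p * Real.log L * (128 * ((P / 64 : ℕ) : ℝ)) := by gcongr
      _ ≤ _ := by
        have : 0 ≤ (p : ℝ) * Real.log L * ((P / 64 : ℕ) : ℝ) := by positivity
        nlinarith
  · have hmain := core_real_order (p := p) hodd (L := L) (T := T) (X := 200 * 16 ^ p * L ^ p)
      (Z := P / 64) (by omega) hLT hT48 (by
        -- T^6
        have h1 : a ^ 3 ≤ (200 * T ^ 2) ^ 3 := Nat.pow_le_pow_left haT 3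
        have h2 : L ^ (2 * p) = a ^ 2 := by rw [ha, ← pow_mul, mul_comm]
        rw [h2]
        have h3 : 8000000 * 16 ^ p ≤ a := by
          have : L * L ≤ L ^ 5 := by
            rw [← sq]; exact Nat.pow_le_pow_right (by omega) (by norm_num)
          nlinarith
        have h4 : 8000000 * (16 ^ p * a ^ 2) ≤ a ^ 3 := by
          calc 8000000 * (16 ^ p * a ^ 2) = (8000000 * 16 ^ p) * a ^ 2 := by ring
            _ ≤ a * a ^ 2 := Nat.mul_le_mul_right _ h3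
            _ = a ^ 3 := by ring
        have h5 : (200 * T ^ 2) ^ 3 = 8000000 * T ^ 6 := by ring
        omega) (by
        rw [mul_pow, ← pow_mul, mul_comm 2 p, pow_mul, ← ha]
        calc 16 ^ p * a ^ 2 = a * (16 ^ p * a) := by ring
          _ ≤ (200 * T ^ 2) * (16 ^ p * a) := Nat.mul_le_mul_right _ haT
          _ = _ := by ring) hZ64 (by omega) hEP hn8 hF
    have hW : (P : ℝ) * (n : ℝ) ^ 2 / 64 ≤ WO F L (P / 64) (200 * 16 ^ p * L ^ p) := by linarith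
    refine le_trans ?_ hW
    rw [Real.rpow_add hLr0, div_le_div_iff₀ (by positivity) (by norm_num)]
    have h2 : (L : ℝ) ^ (2 : ℝ) = (L : ℝ) ^ 2 := by
      rw [← Real.rpow_natCast]; norm_num
    rw [h2]
    have h3 : (L : ℝ) ^ 2 ≤ 4 * (Real.log L) ^ 2 * (n : ℝ) ^ 2 := by
      have : (L : ℝ) ^ 2 ≤ (2 * Real.log L * n) ^ 2 := by
        apply pow_le_pow_left₀ hLr0.le hnL
      nlinarith
    have h4 : (L : ℝ) ^ 2 * (L : ℝ) ^ ((p : ℝ) / 2) ≤
        (4 * (Real.log L) ^ 2 * (n : ℝ) ^ 2) * (30 * p * Real.log L * P) := by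
      apply mul_le_mul h3 hPlow (by positivity) (by positivity)
    rw [div_mul_eq_mul_div, div_mul_eq_mul_div, div_le_iff₀ (by positivity)]
    calc 1 * ((L : ℝ) ^ 2 * (L : ℝ) ^ ((p : ℝ) / 2)) * 64
        ≤ ((4 * (Real.log L) ^ 2 * (n : ℝ) ^ 2) * (30 * p * Real.log L * P)) * 64 := by linarith
      _ ≤ (P : ℝ) * (n : ℝ) ^ 2 * (Real.log L) ^ 3 * (100000 * p) := by
        have : 0 ≤ (P : ℝ) * (n : ℝ) ^ 2 * (Real.log L) ^ 3 * p := by positivity
        nlinarith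

end Pool.Agent.TH827.CG
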